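import Mathlib

set_option autoImplicit false

namespace Pool.Agent.Results.MP_d71e54_al.NoSharpAction

open FirstOrder FirstOrder.Language CategoryTheory

universe u

/-- Strong amalgamation for a class `K` of structures: any two embeddings `A → B`, `A → C` inside `K`
can be completed to embeddings `B → D`, `C → D` with `D` in `K` that agree on `A` and whose images
meet exactly in the image of `A`. -/
def StrongAmalgamation {L : FirstOrder.Language.{0, 0}} (K : Set (Bundled.{0} L.Structure)) : Prop :=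
  ∀ (A B C : Bundled.{0} L.Structure) (f : A ↪[L] B) (g : A ↪[L] C),
    A ∈ K → B ∈ K → C ∈ K →
    ∃ (D : Bundled.{0} L.Structure) (f' : B ↪[L] D) (g' : C ↪[L] D),
      D ∈ K ∧ f'.comp f = g'.comp g ∧
      Set.range f' ∩ Set.range g' = Set.range (f'.comp f)

/-- Two `k`-tuples of pairwise distinct elements of `M` such that the coordinatewise map is an
isomorphism of the induced substructures (the language `L` is relational). -/
def SameType (L : FirstOrder.Language.{0, 0}) {M : Type} [L.Structure M] {k : ℕ} (a b : Fin k → M) : Prop :=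
  Function.Injective a ∧ Function.Injective b ∧
    ∀ (n : ℕ) (r : L.Relations n) (v : Fin n → Fin k),
      Structure.RelMap r (a ∘ v) ↔ Structure.RelMap r (b ∘ v)

/-- A right action of the group `G` on `M` is by automorphisms and is structurally sharply
`k`-transitive: for any two `k`-tuples `a`, `b` of pairwise distinct elements with the same
quantifier-free type there is exactly one `g` in `G` with `a · g = b`. -/
def StructurallySharplyTransitive (L : FirstOrder.Language.{0, 0}) (M : Type) [L.Structure M] (k : ℕ)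
    (G : Type u) [Group G] [MulAction Gᵐᵒᵖ M] : Prop :=
  (∀ (g : G) (n : ℕ) (r : L.Relations n) (v : Fin n → M),
    Structure.RelMap r (fun i => MulOpposite.op g • v i) ↔ Structure.RelMap r v) ∧
  ∀ a b : Fin k → M, SameType L a b → ∃! g : G, ∀ i, MulOpposite.op g • a i = b i

/-! ### Combinatorics of the 4-ary relation -/

/-- A 4-ary relation on distinct tuples such that exactly one of `R a b c d`, `R b a d c` holds. -/
structure Good {X : Type*} (R : X → X → X → X → Prop) : Prop where
  distinct : ∀ a b c d, R a b c d → a ≠ b ∧ a ≠ c ∧ a ≠ d ∧ b ≠ c ∧ b ≠ d ∧ c ≠ d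
  swap : ∀ a b c d, a ≠ b → a ≠ c → a ≠ d → b ≠ c → b ≠ d → c ≠ d →
    (R b a d c ↔ ¬ R a b c d)

/-- An enumeration of the finite sets of quadruples of naturals, each repeated infinitely often. -/
noncomputable def e (m : ℕ) : Finset (ℕ × ℕ × ℕ × ℕ) :=
  ((Denumerable.eqv (Finset (ℕ × ℕ × ℕ × ℕ) × ℕ)).symm m).1

lemma exists_e (F : Finset (ℕ × ℕ × ℕ × ℕ)) (N : ℕ) : ∃ m, N < m ∧ e m = F := by
  have hinj : Function.Injective
      (fun k : ℕ => Denumerable.eqv (Finset (ℕ × ℕ × ℕ × ℕ) × ℕ) (F, k)) := by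
    intro a b hab
    have := (Denumerable.eqv (Finset (ℕ × ℕ × ℕ × ℕ) × ℕ)).injective hab
    simpa using this
  obtain ⟨m, ⟨k, rfl⟩, hm⟩ := (Set.infinite_range_of_injective hinj).exists_gt N
  exact ⟨_, hm, by simp [e]⟩

/-- The generic relation on the natural numbers. -/
def R0 (a b c d : ℕ) : Prop :=
  (a ≠ b ∧ a ≠ c ∧ a ≠ d ∧ b ≠ c ∧ b ≠ d ∧ c ≠ d) ∧
  ((b < a ∧ c < a ∧ d < a ∧ (0, b, c, d) ∈ e a) ∨
   (a < b ∧ c < b ∧ d < b ∧ (0, a, d, c) ∉ e b) ∨
   (a < c ∧ b < c ∧ d < c ∧ (1, a, b, d) ∈ e c) ∨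
   (a < d ∧ b < d ∧ c < d ∧ (1, b, a, c) ∉ e d))

lemma good_R0 : Good R0 := by
  refine ⟨fun a b c d h => h.1, ?_⟩
  intro a b c d hab hac had hbc hbd hcd
  have hmax : (b < a ∧ c < a ∧ d < a) ∨ (a < b ∧ c < b ∧ d < b) ∨
      (a < c ∧ b < c ∧ d < c) ∨ (a < d ∧ b < d ∧ c < d) := by omega
  unfold R0
  rcases hmax with h | h | h | h
  · have h1 : ¬ a < b := by omega
    have h2 : ¬ a < c := by omega
    have h3 : ¬ a < d := by omega
    simp [h, h1, h2, h3, hab, hac, had, hbc, hbd, hcd, hab.symm, hcd.symm]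
  · have h1 : ¬ b < a := by omega
    have h2 : ¬ b < c := by omega
    have h3 : ¬ b < d := by omega
    simp [h, h1, h2, h3, hab, hac, had, hbc, hbd, hcd, hab.symm, hcd.symm]
  · have h1 : ¬ c < a := by omega
    have h2 : ¬ c < b := by omega
    have h3 : ¬ c < d := by omega
    simp [h, h1, h2, h3, hab, hac, had, hbc, hbd, hcd, hab.symm, hcd.symm]
  · have h1 : ¬ d < a := by omega
    have h2 : ¬ d < b := by omega
    have h3 : ¬ d < c := by omega
    simp [h, h1, h2, h3, hab, hac, had, hbc, hbd, hcd, hab.symm, hcd.symm]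

lemma iff_swap {X : Type*} {RX : X → X → X → X → Prop} (hX : Good RX)
    {Y : Type*} {RY : Y → Y → Y → Y → Prop} (hY : Good RY) {h : X → Y} {a b c d : X}
    (h1 : a ≠ b ∧ a ≠ c ∧ a ≠ d ∧ b ≠ c ∧ b ≠ d ∧ c ≠ d)
    (h2 : h a ≠ h b ∧ h a ≠ h c ∧ h a ≠ h d ∧ h b ≠ h c ∧ h b ≠ h d ∧ h c ≠ h d)
    (hs : RX b a d c ↔ RY (h b) (h a) (h d) (h c)) :
    RX a b c d ↔ RY (h a) (h b) (h c) (h d) := by
  obtain ⟨a1, a2, a3, a4, a5, a6⟩ := h1
  obtain ⟨b1, b2, b3, b4, b5, b6⟩ := h2
  rw [hX.swap a b c d a1 a2 a3 a4 a5 a6, hY.swap _ _ _ _ b1 b2 b3 b4 b5 b6] at hs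
  exact not_iff_not.mp hs

open Classical in
/-- One point extension property of the generic relation. -/
lemma ext_one {X : Type*} {RX : X → X → X → X → Prop} (hX : Good RX) (A : Finset X)
    (x : X) (hx : x ∉ A) (h : X → ℕ) (hinj : Set.InjOn h A)
    (hR : ∀ a ∈ A, ∀ b ∈ A, ∀ c ∈ A, ∀ d ∈ A, RX a b c d ↔ R0 (h a) (h b) (h c) (h d))
    (S : Finset ℕ) :
    ∃ m, m ∉ S ∧ Set.InjOn (Function.update h x m) (insert x A : Finset X) ∧
      ∀ a ∈ insert x A, ∀ b ∈ insert x A, ∀ c ∈ insert x A, ∀ d ∈ insert x A,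
        RX a b c d ↔ R0 (Function.update h x m a) (Function.update h x m b)
          (Function.update h x m c) (Function.update h x m d) := by
  let F0 : Finset (ℕ × ℕ × ℕ × ℕ) :=
    ((A ×ˢ A ×ˢ A).filter (fun p => RX x p.1 p.2.1 p.2.2)).image
      (fun p => (0, h p.1, h p.2.1, h p.2.2))
  let F1 : Finset (ℕ × ℕ × ℕ × ℕ) :=
    ((A ×ˢ A ×ˢ A).filter (fun p => RX p.1 p.2.1 x p.2.2)).image
      (fun p => (1, h p.1, h p.2.1, h p.2.2))
  obtain ⟨m, hm, hem⟩ := exists_e (F0 ∪ F1) (S.sup id + A.sup h)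
  have hmS : ∀ s ∈ S, s < m := by
    intro s hs
    have : s ≤ S.sup id := Finset.le_sup (f := id) hs
    omega
  have hmA : ∀ y ∈ A, h y < m := by
    intro y hy
    have : h y ≤ A.sup h := Finset.le_sup (f := h) hy
    omega
  have hne : ∀ y ∈ A, y ≠ x := fun y hy hyx => hx (hyx ▸ hy)
  have hm0 : ∀ b ∈ A, ∀ c ∈ A, ∀ d ∈ A, ((0, h b, h c, h d) ∈ e m ↔ RX x b c d) := by
    intro b hb c hc d hd
    rw [hem]
    constructor
    · intro hmem
      rcases Finset.mem_union.mp hmem with hmem | hmem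
      · obtain ⟨p, hp, hpe⟩ := Finset.mem_image.mp hmem
        obtain ⟨hpA, hpR⟩ := Finset.mem_filter.mp hp
        simp only [Finset.mem_product] at hpA
        simp only [Prod.mk.injEq, true_and] at hpe
        have e1 := hinj hpA.1 hb hpe.1
        have e2 := hinj hpA.2.1 hc hpe.2.1
        have e3 := hinj hpA.2.2 hd hpe.2.2
        rw [e1, e2, e3] at hpR
        exact hpR
      · obtain ⟨p, hp, hpe⟩ := Finset.mem_image.mp hmem
        simp at hpe
    · intro hR
      refine Finset.mem_union_left _ (Finset.mem_image.mpr ⟨(b, c, d), ?_, rfl⟩)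
      simp [hb, hc, hd, hR]
  have hm1 : ∀ a ∈ A, ∀ b ∈ A, ∀ d ∈ A, ((1, h a, h b, h d) ∈ e m ↔ RX a b x d) := by
    intro b hb c hc d hd
    rw [hem]
    constructor
    · intro hmem
      rcases Finset.mem_union.mp hmem with hmem | hmem
      · obtain ⟨p, hp, hpe⟩ := Finset.mem_image.mp hmem
        simp at hpe
      · obtain ⟨p, hp, hpe⟩ := Finset.mem_image.mp hmem
        obtain ⟨hpA, hpR⟩ := Finset.mem_filter.mp hp
        simp only [Finset.mem_product] at hpA
        simp only [Prod.mk.injEq, true_and] at hpe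
        have e1 := hinj hpA.1 hb hpe.1
        have e2 := hinj hpA.2.1 hc hpe.2.1
        have e3 := hinj hpA.2.2 hd hpe.2.2
        rw [e1, e2, e3] at hpR
        exact hpR
    · intro hR
      refine Finset.mem_union_right _ (Finset.mem_image.mpr ⟨(b, c, d), ?_, rfl⟩)
      simp [hb, hc, hd, hR]
  have hinj' : Set.InjOn (Function.update h x m) (insert x A : Finset X) := by
    intro y hy z hz hyz
    rw [Finset.mem_coe, Finset.mem_insert] at hy hz
    rcases hy with rfl | hy <;> rcases hz with rfl | hz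
    · rfl
    · rw [Function.update_self, Function.update_of_ne (hne z hz)] at hyz
      have := hmA z hz
      omega
    · rw [Function.update_self, Function.update_of_ne (hne y hy)] at hyz
      have := hmA y hy
      omega
    · rw [Function.update_of_ne (hne y hy), Function.update_of_ne (hne z hz)] at hyz
      exact hinj hy hz hyz
  refine ⟨m, fun hmS' => lt_irrefl _ (hmS m hmS'), hinj', ?_⟩
  set h' := Function.update h x m with hh'
  have hx' : h' x = m := by simp [hh']
  have hA' : ∀ y ∈ A, h' y = h y := fun y hy => by simp [hh', hne y hy]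
  -- first position
  have key0 : ∀ b ∈ A, ∀ c ∈ A, ∀ d ∈ A,
      (x ≠ b ∧ x ≠ c ∧ x ≠ d ∧ b ≠ c ∧ b ≠ d ∧ c ≠ d) →
      (RX x b c d ↔ R0 (h' x) (h' b) (h' c) (h' d)) := by
    intro b hb c hc d hd hdis
    rw [hx', hA' b hb, hA' c hc, hA' d hd, ← hm0 b hb c hc d hd]
    have l1 := hmA b hb
    have l2 := hmA c hc
    have l3 := hmA d hd
    have n1 : ¬ m < h b := by omega
    have n2 : ¬ m < h c := by omega
    have n3 : ¬ m < h d := by omega
    have i1 : h b ≠ h c := fun hh => hdis.2.2.2.1 (hinj hb hc hh)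
    have i2 : h b ≠ h d := fun hh => hdis.2.2.2.2.1 (hinj hb hd hh)
    have i3 : h c ≠ h d := fun hh => hdis.2.2.2.2.2 (hinj hc hd hh)
    have j1 : m ≠ h b := by omega
    have j2 : m ≠ h c := by omega
    have j3 : m ≠ h d := by omega
    unfold R0
    simp [l1, l2, l3, n1, n2, n3, i1, i2, i3, j1, j2, j3]
  have key1 : ∀ a ∈ A, ∀ b ∈ A, ∀ d ∈ A,
      (a ≠ b ∧ a ≠ x ∧ a ≠ d ∧ b ≠ x ∧ b ≠ d ∧ x ≠ d) →
      (RX a b x d ↔ R0 (h' a) (h' b) (h' x) (h' d)) := by
    intro b hb c hc d hd hdis
    rw [hx', hA' b hb, hA' c hc, hA' d hd, ← hm1 b hb c hc d hd]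
    have l1 := hmA b hb
    have l2 := hmA c hc
    have l3 := hmA d hd
    have n1 : ¬ m < h b := by omega
    have n2 : ¬ m < h c := by omega
    have n3 : ¬ m < h d := by omega
    have i1 : h b ≠ h c := fun hh => hdis.1 (hinj hb hc hh)
    have i2 : h b ≠ h d := fun hh => hdis.2.2.1 (hinj hb hd hh)
    have i3 : h c ≠ h d := fun hh => hdis.2.2.2.2.1 (hinj hc hd hh)
    have j1 : h b ≠ m := by omega
    have j2 : h c ≠ m := by omega
    have j3 : m ≠ h d := by omega
    unfold R0
    simp [l1, l2, l3, n1, n2, n3, i1, i2, i3, j1, j2, j3]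
  intro a ha b hb c hc d hd
  by_cases hdis : a ≠ b ∧ a ≠ c ∧ a ≠ d ∧ b ≠ c ∧ b ≠ d ∧ c ≠ d
  swap
  · constructor
    · intro hr
      exact absurd (hX.distinct _ _ _ _ hr) hdis
    · intro hr
      refine absurd ?_ hdis
      obtain ⟨b1, b2, b3, b4, b5, b6⟩ := good_R0.distinct _ _ _ _ hr
      exact ⟨fun hh => b1 (by rw [hh]), fun hh => b2 (by rw [hh]), fun hh => b3 (by rw [hh]),
        fun hh => b4 (by rw [hh]), fun hh => b5 (by rw [hh]), fun hh => b6 (by rw [hh])⟩
  have hdis' : h' a ≠ h' b ∧ h' a ≠ h' c ∧ h' a ≠ h' d ∧ h' b ≠ h' c ∧ h' b ≠ h' d ∧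
      h' c ≠ h' d := by
    obtain ⟨b1, b2, b3, b4, b5, b6⟩ := hdis
    exact ⟨fun hh => b1 (hinj' ha hb hh), fun hh => b2 (hinj' ha hc hh),
      fun hh => b3 (hinj' ha hd hh), fun hh => b4 (hinj' hb hc hh),
      fun hh => b5 (hinj' hb hd hh), fun hh => b6 (hinj' hc hd hh)⟩
  rw [Finset.mem_insert] at ha hb hc hd
  obtain ⟨b1, b2, b3, b4, b5, b6⟩ := hdis
  rcases ha with ha | ha
  · subst ha
    exact key0 b (hb.resolve_left (Ne.symm b1)) c (hc.resolve_left (Ne.symm b2)) d
      (hd.resolve_left (Ne.symm b3)) ⟨b1, b2, b3, b4, b5, b6⟩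
  rcases hb with hb | hb
  · subst hb
    exact iff_swap hX good_R0 ⟨b1, b2, b3, b4, b5, b6⟩ hdis'
      (key0 a ha d (hd.resolve_left (Ne.symm b5)) c (hc.resolve_left (Ne.symm b4))
        ⟨b1.symm, b5, b4, b3, b2, b6.symm⟩)
  rcases hc with hc | hc
  · subst hc
    exact key1 a ha b hb d (hd.resolve_left (Ne.symm b6)) ⟨b1, b2, b3, b4, b5, b6⟩
  rcases hd with hd | hd
  · subst hd
    exact iff_swap hX good_R0 ⟨b1, b2, b3, b4, b5, b6⟩ hdis'
      (key1 b hb a ha c hc ⟨b1.symm, b5, b4, b3, b2, b6.symm⟩)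
  · rw [hA' a ha, hA' b hb, hA' c hc, hA' d hd]
    exact hR a ha b hb c hc d hd

open Classical in
/-- Finite extension property of the generic relation, avoiding a given finite set. -/
lemma ext_many {X : Type*} {RX : X → X → X → X → Prop} (hX : Good RX) (A : Finset X)
    (h : X → ℕ) (hinj : Set.InjOn h A)
    (hR : ∀ a ∈ A, ∀ b ∈ A, ∀ c ∈ A, ∀ d ∈ A, RX a b c d ↔ R0 (h a) (h b) (h c) (h d))
    (S : Finset ℕ) (B : Finset X) :
    ∃ h' : X → ℕ, (∀ a ∈ A, h' a = h a) ∧ (∀ b ∈ B, b ∉ A → h' b ∉ S) ∧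
      Set.InjOn h' (A ∪ B : Finset X) ∧
      ∀ a ∈ A ∪ B, ∀ b ∈ A ∪ B, ∀ c ∈ A ∪ B, ∀ d ∈ A ∪ B,
        RX a b c d ↔ R0 (h' a) (h' b) (h' c) (h' d) := by
  induction B using Finset.induction_on with
  | empty => exact ⟨h, fun _ _ => rfl, by simp, by simpa using hinj, by simpa using hR⟩
  | insert x B hxB ih =>
    obtain ⟨h1, e1, s1, i1, r1⟩ := ih
    by_cases hxA : x ∈ A
    · have hU : A ∪ insert x B = A ∪ B := by
        ext y
        simp only [Finset.mem_union, Finset.mem_insert]
        constructor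
        · rintro (hy | rfl | hy)
          · exact Or.inl hy
          · exact Or.inl hxA
          · exact Or.inr hy
        · rintro (hy | hy)
          · exact Or.inl hy
          · exact Or.inr (Or.inr hy)
      rw [hU]
      refine ⟨h1, e1, ?_, i1, r1⟩
      intro b hb hbA
      rcases Finset.mem_insert.mp hb with rfl | hb
      · exact absurd hxA hbA
      · exact s1 b hb hbA
    · have hx : x ∉ A ∪ B := by simp [hxA, hxB]
      have hU : A ∪ insert x B = insert x (A ∪ B) := by
        rw [Finset.union_insert]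
      obtain ⟨m, hmS, hmi, hmR⟩ := ext_one hX (A ∪ B) x hx h1 i1 r1 S
      rw [hU]
      refine ⟨Function.update h1 x m, ?_, ?_, hmi, hmR⟩
      · intro a ha
        have : a ≠ x := fun hh => hxA (hh ▸ ha)
        rw [Function.update_of_ne this]
        exact e1 a ha
      · intro b hb hbA
        by_cases hbx : b = x
        · subst hbx
          simpa using hmS
        · rw [Function.update_of_ne hbx]
          exact s1 b ((Finset.mem_insert.mp hb).resolve_left hbx) hbA

/-! ### The structure -/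

/-- The language has a single relation symbol, of arity four. -/
inductive Rel4 : ℕ → Type
  | rel : Rel4 4

/-- The relational language with one 4-ary relation symbol. -/
def L4 : FirstOrder.Language.{0, 0} := ⟨fun _ => Empty, Rel4⟩

instance instRel : L4.IsRelational := fun _ => inferInstanceAs (IsEmpty Empty)

/-- The relation symbol. -/
def sym : L4.Relations 4 := Rel4.rel

/-- The relation `R0` as the interpretation of the symbols of `L4`. -/
def relMap0 : (n : ℕ) → Rel4 n → (Fin n → ℕ) → Prop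
  | _, Rel4.rel, v => R0 (v 0) (v 1) (v 2) (v 3)

/-- The underlying set of the generic structure. -/
def U : Type := ℕ

instance instU : L4.Structure U where
  funMap := fun f => Empty.elim f
  RelMap := fun {n} r v => relMap0 n r v

instance : Countable U := inferInstanceAs (Countable ℕ)
instance : Infinite U := inferInstanceAs (Infinite ℕ)
instance : DecidableEq U := inferInstanceAs (DecidableEq ℕ)

/-- The 4-ary relation of an `L4`-structure. -/
def rel (X : Type) [L4.Structure X] (a b c d : X) : Prop :=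
  Structure.RelMap sym ![a, b, c, d]

lemma rel_U (a b c d : U) : rel U a b c d ↔ R0 a b c d := Iff.rfl

lemma relMap_iff {X : Type} [L4.Structure X] (v : Fin 4 → X) :
    Structure.RelMap sym v ↔ rel X (v 0) (v 1) (v 2) (v 3) := by
  unfold rel
  have : v = ![v 0, v 1, v 2, v 3] := by
    ext i
    fin_cases i <;> rfl
  rw [← this]

lemma rel_embedding {X Y : Type} [L4.Structure X] [L4.Structure Y] (f : X ↪[L4] Y)
    (a b c d : X) : rel X a b c d ↔ rel Y (f a) (f b) (f c) (f d) := by
  unfold rel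
  rw [← f.map_rel sym (![a, b, c, d])]
  rw [relMap_iff (f ∘ _)]
  rfl

lemma good_of_embedding {X : Type} [L4.Structure X] (f : X ↪[L4] U) : Good (rel X) := by
  refine ⟨?_, ?_⟩
  · intro a b c d h
    rw [rel_embedding f, rel_U] at h
    obtain ⟨b1, b2, b3, b4, b5, b6⟩ := good_R0.distinct _ _ _ _ h
    exact ⟨fun hh => b1 (by rw [hh]), fun hh => b2 (by rw [hh]), fun hh => b3 (by rw [hh]),
        fun hh => b4 (by rw [hh]), fun hh => b5 (by rw [hh]), fun hh => b6 (by rw [hh])⟩
  · intro a b c d h1 h2 h3 h4 h5 h6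
    rw [rel_embedding f a b c d, rel_embedding f b a d c, rel_U, rel_U]
    exact good_R0.swap _ _ _ _ (f.injective.ne h1) (f.injective.ne h2) (f.injective.ne h3)
      (f.injective.ne h4) (f.injective.ne h5) (f.injective.ne h6)

/-- An injective map preserving the 4-ary relation in both directions is an embedding. -/
def mkEmb {X Y : Type} [L4.Structure X] [L4.Structure Y] (h : X → Y)
    (hi : Function.Injective h)
    (hr : ∀ a b c d, rel X a b c d ↔ rel Y (h a) (h b) (h c) (h d)) : X ↪[L4] Y where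
  toFun := h
  inj' := hi
  map_fun' := fun f _ => Empty.elim f
  map_rel' := by
    intro n r v
    cases r
    change Structure.RelMap sym (h ∘ v) ↔ Structure.RelMap sym v
    rw [relMap_iff, relMap_iff]
    exact (hr _ _ _ _).symm

@[simp] lemma mkEmb_apply {X Y : Type} [L4.Structure X] [L4.Structure Y] (h : X → Y)
    (hi : Function.Injective h)
    (hr : ∀ a b c d, rel X a b c d ↔ rel Y (h a) (h b) (h c) (h d)) (x : X) :
    mkEmb h hi hr x = h x := rfl

open Classical in
/-- Extension of embeddings of finite structures, with new values off a given finite set. -/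
lemma extend_avoid {X Y : Type} [L4.Structure X] [L4.Structure Y] [Finite X] [Finite Y]
    (i : X ↪[L4] Y) (hY : Good (rel Y)) (f : X ↪[L4] U) (S : Finset ℕ) :
    ∃ f' : Y ↪[L4] U, (∀ x, f' (i x) = f x) ∧ ∀ y, y ∉ Set.range i → f' y ∉ S := by
  have := Fintype.ofFinite X
  have := Fintype.ofFinite Y
  let A : Finset Y := Finset.univ.image i
  let h : Y → ℕ := fun y => if hy : ∃ x, i x = y then f hy.choose else 0
  have hi : ∀ x, h (i x) = f x := by
    intro x
    have hex : ∃ x', i x' = i x := ⟨x, rfl⟩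
    have : h (i x) = f hex.choose := dif_pos hex
    rw [this]
    congr 1
    exact i.injective hex.choose_spec
  have hA : ∀ y ∈ A, ∃ x, i x = y := by
    intro y hy
    obtain ⟨x, _, hx⟩ := Finset.mem_image.mp hy
    exact ⟨x, hx⟩
  have hinj : Set.InjOn h A := by
    intro y hy z hz hyz
    obtain ⟨x, rfl⟩ := hA y hy
    obtain ⟨x', rfl⟩ := hA z hz
    rw [hi, hi] at hyz
    rw [f.injective hyz]
  have hR : ∀ a ∈ A, ∀ b ∈ A, ∀ c ∈ A, ∀ d ∈ A,
      rel Y a b c d ↔ R0 (h a) (h b) (h c) (h d) := by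
    intro a ha b hb c hc d hd
    obtain ⟨a, rfl⟩ := hA a ha
    obtain ⟨b, rfl⟩ := hA b hb
    obtain ⟨c, rfl⟩ := hA c hc
    obtain ⟨d, rfl⟩ := hA d hd
    rw [hi, hi, hi, hi, ← rel_embedding i, rel_embedding f, rel_U]
  obtain ⟨h', e', s', i', r'⟩ := ext_many hY A h hinj hR S Finset.univ
  have hall : ∀ y : Y, y ∈ A ∪ (Finset.univ : Finset Y) := fun y => by simp
  refine ⟨mkEmb (Y := U) h' (fun y z hyz => i' (by simp) (by simp) hyz)
    (fun a b c d => r' a (hall a) b (hall b) c (hall c) d (hall d)), ?_, ?_⟩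
  · intro x
    change h' (i x) = f x
    rw [e' (i x) (Finset.mem_image_of_mem _ (Finset.mem_univ x)), hi]
  · intro y hy
    change h' y ∉ S
    refine s' y (Finset.mem_univ y) ?_
    intro hyA
    obtain ⟨x, hx⟩ := hA y hyA
    exact hy ⟨x, hx⟩

lemma ultrahomogeneous : L4.IsUltrahomogeneous U := by
  rw [isUltrahomogeneous_iff_IsExtensionPair (Structure.cg_of_countable),
    isExtensionPair_iff_exists_embedding_closure_singleton_sup]
  intro S hS f m
  have hfin : Finite S := Substructure.fg_iff_finite.mp hS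
  have hfg : (Substructure.closure L4 {m} ⊔ S : L4.Substructure U).FG :=
    (Substructure.fg_closure_singleton _).sup hS
  have hfin' : Finite (Substructure.closure L4 {m} ⊔ S : L4.Substructure U) :=
    Substructure.fg_iff_finite.mp hfg
  obtain ⟨f', hf', _⟩ := extend_avoid (Substructure.inclusion (le_sup_right :
    S ≤ Substructure.closure L4 {m} ⊔ S)) (good_of_embedding (Substructure.subtype _)) f ∅
  refine ⟨f', ?_⟩
  ext x
  exact (hf' x).symm

lemma strongAmalgamation_U : StrongAmalgamation (L4.age U) := by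
  rintro A B C f g ⟨hA, ⟨a⟩⟩ ⟨hB, ⟨b⟩⟩ ⟨hC, ⟨c⟩⟩
  have : Finite A := hA.finite
  have : Finite B := hB.finite
  have : Finite C := hC.finite
  have : Fintype B := Fintype.ofFinite B
  obtain ⟨c', hc', havoid⟩ := extend_avoid g (good_of_embedding c) (b.comp f)
    (Finset.univ.image (fun x => (b x : ℕ)))
  let s : L4.Substructure U := b.toHom.range ⊔ c'.toHom.range
  refine ⟨Bundled.of s,
    Embedding.comp (Substructure.inclusion le_sup_left) b.equivRange.toEmbedding,
    Embedding.comp (Substructure.inclusion le_sup_right) c'.equivRange.toEmbedding,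
    ⟨(Substructure.fg_iff_structure_fg _).1
      (Substructure.FG.sup (hB.range _) (hC.range _)), ⟨Substructure.subtype _⟩⟩, ?_, ?_⟩
  · ext x
    apply Subtype.ext
    exact (hc' x).symm
  · ext y
    constructor
    · rintro ⟨⟨p, hp⟩, ⟨q, hq⟩⟩
      have hpq : b p = c' q := by
        have := congrArg Subtype.val (hp.trans hq.symm)
        exact this
      by_cases hqr : q ∈ Set.range g
      · obtain ⟨x, rfl⟩ := hqr
        refine ⟨x, ?_⟩
        rw [← hp]
        apply Subtype.ext
        change b (f x) = b p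
        rw [hpq, hc']
        rfl
      · exact absurd (Finset.mem_image.mpr ⟨p, Finset.mem_univ p, hpq⟩) (havoid q hqr)
    · rintro ⟨x, hx⟩
      refine ⟨⟨f x, hx⟩, ⟨g x, ?_⟩⟩
      rw [← hx]
      apply Subtype.ext
      exact hc' x

/-! ### A tuple whose type is invariant under exchanging the first two entries -/

/-- A relation on the naturals in the class, invariant under exchanging `0` and `1`. -/
def RT (a b c d : ℕ) : Prop :=
  (a ≠ b ∧ a ≠ c ∧ a ≠ d ∧ b ≠ c ∧ b ≠ d ∧ c ≠ d) ∧
    (max a 1 < max b 1 ∨ (max a 1 = max b 1 ∧ c < d))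

lemma good_RT : Good RT := by
  refine ⟨fun a b c d h => h.1, ?_⟩
  intro a b c d h1 h2 h3 h4 h5 h6
  unfold RT
  constructor
  · rintro ⟨_, h⟩ ⟨_, h'⟩
    omega
  · intro h
    refine ⟨⟨h1.symm, h5, h4, h3, h2, h6.symm⟩, ?_⟩
    by_contra hc
    apply h
    refine ⟨⟨h1, h2, h3, h4, h5, h6⟩, ?_⟩
    omega

/-- Exchanging `0` and `1`. -/
def sw (a : ℕ) : ℕ := if a = 0 then 1 else if a = 1 then 0 else a

lemma RT_sw (a b c d : ℕ) : RT (sw a) (sw b) (sw c) (sw d) ↔ RT a b c d := by
  unfold RT sw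
  split_ifs <;> constructor <;> rintro ⟨⟨h1, h2, h3, h4, h5, h6⟩, h7⟩ <;>
    refine ⟨⟨?_, ?_, ?_, ?_, ?_, ?_⟩, ?_⟩ <;> omega

/-- For `k ≥ 2` there are `k` distinct points whose type is invariant under exchanging the first
two. -/
lemma exists_tuple (k : ℕ) (hk : 2 ≤ k) :
    ∃ a b : Fin k → U, SameType L4 a b ∧ a ⟨0, by omega⟩ = b ⟨1, by omega⟩ ∧
      a ⟨1, by omega⟩ = b ⟨0, by omega⟩ ∧ (∀ i, ∃ j, b i = a j ∧ b j = a i) := by
  obtain ⟨h, -, -, hinj, hR⟩ := ext_many good_RT ∅ (fun _ => 0) (by simp) (by simp) ∅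
    (Finset.range k)
  simp only [Finset.empty_union] at hinj hR
  have hsw : ∀ i, i < k → sw i < k := by
    intro i hi
    unfold sw
    split_ifs <;> omega
  have hswsw : ∀ i, sw (sw i) = i := by
    intro i
    unfold sw
    by_cases h0 : i = 0
    · simp [h0]
    · by_cases h1 : i = 1
      · simp [h1]
      · simp [h0, h1]
  refine ⟨fun i => h i, fun i => h (sw i), ⟨?_, ?_, ?_⟩, rfl, rfl, ?_⟩
  · intro i j hij
    have := hinj (by simp) (by simp) hij
    exact Fin.ext this
  · intro i j hij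
    have := hinj (by simpa using hsw i i.2) (by simpa using hsw j j.2) hij
    have h2 := congrArg sw this
    rw [hswsw, hswsw] at h2
    exact Fin.ext h2
  · intro n r v
    cases r
    change Structure.RelMap sym _ ↔ Structure.RelMap sym _
    rw [relMap_iff, relMap_iff, rel_U, rel_U]
    simp only [Function.comp]
    rw [← hR _ (by simp) _ (by simp) _ (by simp) _ (by simp),
      ← hR _ (by simpa using hsw _ (v 0).2) _ (by simpa using hsw _ (v 1).2) _
        (by simpa using hsw _ (v 2).2) _ (by simpa using hsw _ (v 3).2), RT_sw]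
  · intro i
    refine ⟨⟨sw i, hsw i i.2⟩, rfl, ?_⟩
    change h (sw (sw i)) = h i
    rw [hswsw]

/-- There is a countably infinite ultrahomogeneous relational structure whose age has strong
amalgamation and which admits no structurally sharply `k`-transitive action of any group, for any
`k ≥ 2`; the case `k = 2` answers the question. -/
theorem result :
    ∃ (L : FirstOrder.Language.{0, 0}) (_ : L.IsRelational) (M : Type) (_ : L.Structure M),
      Countable M ∧ Infinite M ∧ L.IsUltrahomogeneous M ∧ StrongAmalgamation (L.age M) ∧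
      ∀ (k : ℕ), 2 ≤ k → ∀ (G : Type u) [Group G] [MulAction Gᵐᵒᵖ M],
        ¬ StructurallySharplyTransitive L M k G := by
  refine ⟨L4, instRel, U, instU, inferInstance, inferInstance, ultrahomogeneous,
    strongAmalgamation_U, ?_⟩
  intro k hk G _ _ ⟨haut, hsharp⟩
  obtain ⟨a, b, hab, h01, h10, hinv⟩ := exists_tuple k hk
  obtain ⟨g, hg, -⟩ := hsharp a b hab
  -- uniqueness: an element fixing `k` distinct points is trivial
  have huniq : ∀ (x : G) (c : Fin k → U), Function.Injective c →
      (∀ i, MulOpposite.op x • c i = c i) → x = 1 := by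
    intro x c hc hx
    obtain ⟨y, _, hy⟩ := hsharp c c ⟨hc, hc, fun _ _ _ => Iff.rfl⟩
    rw [hy x hx, hy 1 (fun i => by simp)]
  have hgg : g * g = 1 := by
    apply huniq (g * g) a hab.1
    intro i
    obtain ⟨j, hj1, hj2⟩ := hinv i
    rw [MulOpposite.op_mul, mul_smul, hg i, hj1, hg j, hj2]
  have hop : ∀ x : U, MulOpposite.op g • (MulOpposite.op g • x) = x := by
    intro x
    rw [← mul_smul, ← MulOpposite.op_mul, hgg, MulOpposite.op_one, one_smul]
  set p := a ⟨0, by omega⟩ with hp
  set q := a ⟨1, by omega⟩ with hq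
  have hgp : MulOpposite.op g • p = q := by rw [hp, hg, h10]
  have hgq : MulOpposite.op g • q = p := by rw [hq, hg, h01]
  have hpq : p ≠ q := by
    intro h
    have := hab.1 h
    simp at this
  -- some other point is moved
  have hmove : ∃ x : U, x ≠ p ∧ x ≠ q ∧ MulOpposite.op g • x ≠ x := by
    by_contra hcon
    push Not at hcon
    have : Infinite ({p, q}ᶜ : Set U) := (Set.toFinite {p, q}).infinite_compl.to_subtype
    let c : Fin k → U := fun i => (Infinite.natEmbedding ({p, q}ᶜ : Set U) i : U)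
    have hc : Function.Injective c := by
      intro i j hij
      have := (Infinite.natEmbedding ({p, q}ᶜ : Set U)).injective (Subtype.ext hij)
      exact Fin.ext this
    have hg1 : g = 1 := by
      apply huniq g c hc
      intro i
      have hmem := (Infinite.natEmbedding ({p, q}ᶜ : Set U) i).2
      simp only [Set.mem_compl_iff, Set.mem_insert_iff, Set.mem_singleton_iff, not_or] at hmem
      exact hcon _ hmem.1 hmem.2
    rw [hg1, MulOpposite.op_one, one_smul] at hgp
    exact hpq hgp
  obtain ⟨x, hxp, hxq, hx⟩ := hmove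
  set y := MulOpposite.op g • x with hy
  have hgy : MulOpposite.op g • y = x := hop x
  have hyp : y ≠ p := by
    intro h
    apply hxq
    rw [← hgy, h, hgp]
  have hyq : y ≠ q := by
    intro h
    apply hxp
    rw [← hgy, h, hgq]
  have h1 := haut g 4 sym ![p, q, x, y]
  rw [relMap_iff, relMap_iff] at h1
  have h2 : R0 q p y x ↔ R0 p q x y := by
    have e0 : (MulOpposite.op g • (![p, q, x, y] : Fin 4 → U) 0) = q := hgp
    have e1 : (MulOpposite.op g • (![p, q, x, y] : Fin 4 → U) 1) = p := hgq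
    have e2 : (MulOpposite.op g • (![p, q, x, y] : Fin 4 → U) 2) = y := rfl
    have e3 : (MulOpposite.op g • (![p, q, x, y] : Fin 4 → U) 3) = x := hgy
    rw [e0, e1, e2, e3] at h1
    exact h1
  have h3 := good_R0.swap p q x y hpq (Ne.symm hxp) (Ne.symm hyp) (Ne.symm hxq) (Ne.symm hyq)
    (Ne.symm hx)
  tauto

end Pool.Agent.Results.MP_d71e54_al.NoSharpAction
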